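import Pool.Agent.Run7.h275.S.I5

/-!
# Pieces VVV and UEQ of project RB/SC (helper275), by helper594 (VVV is a copy of `Run7/h410/SC/DVV.lean`)
-/

set_option autoImplicit false
set_option linter.all false

namespace Pool.Agent.Run7.h594.SC

open AlgebraicGeometry CategoryTheory Pool.Agent.W418.LU2 Pool.Agent.Run7.h275.RB
open Pool.Agent.Run7.h275.SC

theorem vvv (R : Type) [CommRing R] [IsDomain R] [ValuationRing R] :
  ∃ V : ValuationSubring (FractionRing R), (∀ r : R, algebraMap R (FractionRing R) r ∈ V) ∧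
    (∀ x ∈ V, ∃ r : R, algebraMap R (FractionRing R) r = x) ∧
    (∀ (r : R) (q : ℕ), r ∉ IsLocalRing.maximalIdeal R ^ (q + 1) → OrdLe V (algebraMap R (FractionRing R) r) q) := by
  classical
  set K := FractionRing R with hK
  let V : ValuationSubring K := (ValuationRing.valuation R K).valuationSubring
  have hV : ∀ x : K, x ∈ V ↔ ∃ r : R, algebraMap R K r = x := fun x => ValuationRing.mem_integer_iff R K x
  have hinj : Function.Injective (algebraMap R K) := IsFractionRing.injective R K
  refine ⟨V, fun r => (hV _).2 ⟨r, rfl⟩, fun x hx => (hV x).1 hx, ?_⟩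
  intro r q hr z hz
  by_contra hcon
  push Not at hcon
  -- the `z i` come from the maximal ideal
  have hm : ∀ i, i < q + 1 → ∃ m ∈ IsLocalRing.maximalIdeal R, algebraMap R K m = z i := by
    intro i hi
    have h1 := hz i hi
    have h2 : z i ∈ V := (V.valuation_le_one_iff _).1 h1.le
    obtain ⟨m, hm⟩ := (hV _).1 h2
    refine ⟨m, ?_, hm⟩
    rw [IsLocalRing.mem_maximalIdeal, mem_nonunits_iff]
    intro hu
    obtain ⟨u, rfl⟩ := hu
    have h3 : z i * algebraMap R K ((u⁻¹ : Rˣ) : R) = 1 := by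
      rw [← hm, ← map_mul, Units.mul_inv, map_one]
    have h4 : V.valuation (algebraMap R K ((u⁻¹ : Rˣ) : R)) ≤ 1 :=
      (V.valuation_le_one_iff _).2 ((hV _).2 ⟨_, rfl⟩)
    have h5 : V.valuation (z i) * V.valuation (algebraMap R K ((u⁻¹ : Rˣ) : R)) = 1 := by
      rw [← map_mul, h3, map_one]
    have h6 : V.valuation (z i) * V.valuation (algebraMap R K ((u⁻¹ : Rˣ) : R)) < 1 :=
      mul_lt_one_of_lt_of_le h1 h4
    rw [h5] at h6
    exact lt_irrefl _ h6
  have hprod : ∃ m ∈ IsLocalRing.maximalIdeal R ^ (q + 1), algebraMap R K m = ∏ i ∈ Finset.range (q + 1), z i := by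
    choose! m hm1 hm2 using hm
    refine ⟨∏ i ∈ Finset.range (q + 1), m i, ?_, ?_⟩
    · have := Ideal.prod_mem_prod (s := Finset.range (q + 1)) (I := fun _ => IsLocalRing.maximalIdeal R) (x := m)
        (fun i hi => hm1 i (Finset.mem_range.mp hi))
      simpa using this
    · rw [map_prod]
      exact Finset.prod_congr rfl fun i hi => hm2 i (Finset.mem_range.mp hi)
  obtain ⟨m, hm1, hm2⟩ := hprod
  rw [← hm2, V.valuation_le_iff] at hcon
  obtain ⟨⟨a, ha⟩, h7⟩ := hcon
  obtain ⟨s, hs⟩ := (hV a).1 ha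
  apply hr
  have h8 : s * m = r := by
    apply hinj
    rw [map_mul, hs]
    exact h7
  rw [← h8]
  exact Ideal.mul_mem_left _ _ hm1

/-- **VVV** -/
theorem t_VVV : S_VVV := fun R _ _ _ => vvv R

/-- **UEQ** -/
theorem t_UEQ : S_UEQ := by
  intro F _ B C Y _ i j _ _ hg hB hC z w hzw f hf hfC hfz
  let z' : PrimeSpectrum B := z
  let R := Localization.AtPrime z'.asIdeal
  let s : Spec (CommRingCat.of R) ⟶ Sp B := Spec.map (CommRingCat.ofHom (algebraMap B R))
  have hunit : ∀ y : z'.asIdeal.primeCompl, IsUnit (B.subtype (y : B)) := by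
    intro y
    rw [isUnit_iff_ne_zero]
    intro h0
    apply y.2
    have h1 : (y : B) = 0 := Subtype.ext h0
    rw [h1]
    exact z'.asIdeal.zero_mem
  let ψ : R →+* F := IsLocalization.lift (M := z'.asIdeal.primeCompl) hunit
  have hψ : ∀ b : B, ψ (algebraMap B R b) = (b : F) := fun b => IsLocalization.lift_eq hunit b
  have hψinj : Function.Injective ψ := by
    rw [injective_iff_map_eq_zero]
    intro x hx
    obtain ⟨a, b, rfl⟩ := IsLocalization.exists_mk'_eq z'.asIdeal.primeCompl x
    have h1 : IsLocalization.mk' R a b * algebraMap B R (b : B) = algebraMap B R a :=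
      IsLocalization.mk'_spec R a b
    have h2 := congrArg ψ h1
    rw [map_mul, hx, zero_mul, hψ] at h2
    have h3 : a = 0 := Subtype.ext h2.symm
    rw [h3]
    exact IsLocalization.mk'_zero b
  have hc : s (IsLocalRing.closedPoint R) = z := by
    apply PrimeSpectrum.ext
    change Ideal.comap (algebraMap B R) (IsLocalRing.maximalIdeal R) = z'.asIdeal
    exact Localization.AtPrime.comap_maximalIdeal
  have hrange : Set.range (s ≫ i) ⊆ Set.range j := by
    rintro _ ⟨x, rfl⟩
    have h1 : x ⤳ (IsLocalRing.closedPoint R : Spec (CommRingCat.of R)) :=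
      IsLocalRing.specializes_closedPoint (R := R) x
    have h2 : (s ≫ i) x ⤳ (s ≫ i) (IsLocalRing.closedPoint R) := h1.map (s ≫ i).continuous
    refine h2.mem_open j.isOpenEmbedding.isOpen_range ?_
    rw [Scheme.Hom.comp_apply]
    erw [hc]
    rw [hzw]
    exact ⟨w, rfl⟩
  let β := IsOpenImmersion.lift j (s ≫ i) hrange
  have hβ : β ≫ j = s ≫ i := IsOpenImmersion.lift_fac j (s ≫ i) hrange
  let φ := Spec.preimage β
  have hφ : Spec.map φ = β := Spec.map_preimage β
  have h3 : Spec.map (CommRingCat.ofHom ψ) ≫ s = gen B := by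
    change Spec.map (CommRingCat.ofHom ψ) ≫ Spec.map (CommRingCat.ofHom (algebraMap B R)) = Spec.map _
    rw [← Spec.map_comp]
    congr 1
    ext b
    exact hψ b
  have h4 : Spec.map (CommRingCat.ofHom ψ) ≫ β = gen C := by
    rw [← cancel_mono j, Category.assoc, hβ, ← Category.assoc, h3, hg]
  rw [← hφ, ← Spec.map_comp] at h4
  have h5 := Spec.map_injective h4
  have h6 : ∀ c : C, ψ (φ.hom c) = (c : F) := fun c => by
    have := congrArg (fun (k : CommRingCat.of C ⟶ CommRingCat.of F) => k.hom c) h5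
    exact this
  have h7 : algebraMap B R f * φ.hom ⟨(f : F)⁻¹, hfC⟩ = 1 := by
    apply hψinj
    rw [map_mul, hψ, map_one]
    erw [h6]
    exact mul_inv_cancel₀ hf
  have h8 : IsUnit (algebraMap B R f) := IsUnit.of_mul_eq_one _ h7
  rw [IsLocalization.AtPrime.isUnit_to_map_iff R z'.asIdeal f] at h8
  exact h8 hfz

end Pool.Agent.Run7.h594.SC
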